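import Pool.Agent.Helper28.HH.G4
import Pool.Agent.Helper1.FG.Big

/-!
# Effective Alexander-Hirschowitz theorem in the plane

For general points `p_1, ..., p_n` of the plane and multiplicities `m_1, ..., m_n`: if for some `M`
the sum of the `m_i > M`, plus `8 M ^ 2`, is at most `d + 1`, then the curves of degree `d` with
multiplicity at least `m_i` at `p_i` form a space of the expected dimension.
-/

set_option autoImplicit false

namespace Pool.Agent.Results.MP_6ec8e4_ag.LargeDegree

open Pool.Agent.Helper28.HH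
open Pool.Agent.Helper1.FH (Item Inj)

theorem result (n d M : ℕ) (m : Fin n → ℕ)
    (hd : ∑ i, (if M < m i then m i else 0) + 8 * M ^ 2 ≤ d + 1) :
    ∃ g : MvPolynomial (Fin n × Fin 2) ℂ, g ≠ 0 ∧
      ∀ p : Fin n → Fin 2 → ℂ,
        MvPolynomial.eval (fun ij : Fin n × Fin 2 => p ij.1 ij.2) g ≠ 0 →
        2 * (Module.finrank ℂ (Submodule.span ℂ
            {h : MvPolynomial (Fin 2) ℂ | h.totalDegree ≤ d ∧
              ∀ i : Fin n, ∀ s : Fin 2 →₀ ℕ, s 0 + s 1 < m i →
                MvPolynomial.coeff s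
                  (MvPolynomial.aeval
                    (fun j : Fin 2 => (MvPolynomial.X j + MvPolynomial.C (p i j) : MvPolynomial (Fin 2) ℂ)) h) = 0}) : ℤ)
          = max 0 (((d : ℤ) + 1) * ((d : ℤ) + 2) - ∑ i, ((m i : ℤ) * ((m i : ℤ) + 1))) := by
  have hsum : 2 * ((∑ i, Pool.Agent.Helper1.FH.T (m i) : ℕ) : ℤ) = ∑ i, ((m i : ℤ) * ((m i : ℤ) + 1)) := by
    rw [Nat.cast_sum, Finset.mul_sum]
    apply Finset.sum_congr rfl
    intro i _
    exact_mod_cast Pool.Agent.Helper1.FH.two_T (m i)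
  have hT : (2 * Pool.Agent.Helper1.FH.T (d + 1) : ℤ) = ((d : ℤ) + 1) * ((d : ℤ) + 2) := by
    have h := Pool.Agent.Helper1.FH.two_T (d + 1)
    have h2 : ((2 * Pool.Agent.Helper1.FH.T (d + 1) : ℕ) : ℤ) = (((d + 1) * (d + 1 + 1) : ℕ) : ℤ) := by
      rw [h]
    push_cast at h2
    rw [h2]
    ring
  rcases Nat.lt_or_ge (Pool.Agent.Helper1.FH.T (d + 1)) (∑ i, Pool.Agent.Helper1.FH.T (m i)) with hv | hv
  · -- no curves
    have hinj : Inj (d + 1) (fun i : Fin n => Item.off (m i)) :=
      Pool.Agent.Helper1.FI.inj_big (M := M) m (fun _ => rfl) (Or.inl hd) hv.le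
    obtain ⟨p0, hp0⟩ := KR_of_inj hinj
    obtain ⟨g, hg, h⟩ := hp0.generic
    refine ⟨g, hg, fun p hp => ?_⟩
    have h1 := h p hp
    have h2 : {h : MvPolynomial (Fin 2) ℂ | h.totalDegree ≤ d ∧
              ∀ i : Fin n, ∀ s : Fin 2 →₀ ℕ, s 0 + s 1 < m i →
                MvPolynomial.coeff s
                  (MvPolynomial.aeval
                    (fun j : Fin 2 => (MvPolynomial.X j + MvPolynomial.C (p i j) : MvPolynomial (Fin 2) ℂ)) h) = 0}
        ⊆ {0} := by
      intro f hf
      exact h1.eq_zero hf.1 hf.2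
    have h3 : Submodule.span ℂ {h : MvPolynomial (Fin 2) ℂ | h.totalDegree ≤ d ∧
              ∀ i : Fin n, ∀ s : Fin 2 →₀ ℕ, s 0 + s 1 < m i →
                MvPolynomial.coeff s
                  (MvPolynomial.aeval
                    (fun j : Fin 2 => (MvPolynomial.X j + MvPolynomial.C (p i j) : MvPolynomial (Fin 2) ℂ)) h) = 0}
        = ⊥ := by
      rw [Submodule.span_eq_bot]
      intro f hf
      exact h2 hf
    rw [h3, finrank_bot]
    have h4 : ((Pool.Agent.Helper1.FH.T (d + 1) : ℕ) : ℤ) < ((∑ i, Pool.Agent.Helper1.FH.T (m i) : ℕ) : ℤ) := by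
      exact_mod_cast hv
    rw [max_eq_left]
    · simp
    · linarith
  · -- independent conditions
    obtain ⟨v, hv'⟩ : ∃ v, ∑ i, Pool.Agent.Helper1.FH.T (m i) + v = Pool.Agent.Helper1.FH.T (d + 1) :=
      ⟨_, Nat.add_sub_of_le hv⟩
    have hx : ∀ k : Fin n ⊕ Fin v,
        (Sum.elim (fun i : Fin n => Item.off (m i)) (fun _ : Fin v => Item.off 1)) k
          = Item.off (Sum.elim m (fun _ => 1) k) := by
      intro k
      cases k <;> rfl
    have hsz : Pool.Agent.Helper1.FH.T (d + 1) ≤ Pool.Agent.Helper1.FH.tot Item.sz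
        (Sum.elim (fun i : Fin n => Item.off (m i)) (fun _ : Fin v => Item.off 1)) := by
      unfold Pool.Agent.Helper1.FH.tot
      rw [Fintype.sum_sum_type]
      simp only [Sum.elim_inl, Sum.elim_inr, Item.sz, Pool.Agent.Helper1.FH.T_one, Finset.sum_const,
        Finset.card_univ, Fintype.card_fin, smul_eq_mul, mul_one]
      omega
    have hinj : Inj (d + 1) (Sum.elim (fun i : Fin n => Item.off (m i)) (fun _ : Fin v => Item.off 1)) := by
      rcases Nat.eq_zero_or_pos M with hM | hM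
      · apply Pool.Agent.Helper1.FI.inj_big (M := 1) _ hx (Or.inr ⟨le_rfl, ?_⟩) hsz
        rw [Fintype.sum_sum_type]
        simp only [Sum.elim_inl, Sum.elim_inr, lt_irrefl, if_false, Finset.sum_const_zero, add_zero]
        have h1 : ∑ i, (if 1 < m i then m i else 0) ≤ ∑ i, (if M < m i then m i else 0) := by
          apply Finset.sum_le_sum
          intro i _
          split_ifs <;> omega
        omega
      · apply Pool.Agent.Helper1.FI.inj_big (M := M) _ hx (Or.inl ?_) hsz
        rw [Fintype.sum_sum_type]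
        simp only [Sum.elim_inl, Sum.elim_inr]
        have h1 : ∑ _i : Fin v, (if M < 1 then 1 else 0) = 0 := by
          rw [if_neg (by omega), Finset.sum_const_zero]
        rw [h1]
        omega
    obtain ⟨p0, hp0⟩ := FR_of_inj hv' hinj
    obtain ⟨g, hg, h⟩ := hp0.generic
    refine ⟨g, hg, fun p hp => ?_⟩
    rw [(h p hp).finrank, max_eq_right]
    have h4 : ((∑ i, Pool.Agent.Helper1.FH.T (m i) : ℕ) : ℤ) ≤ ((Pool.Agent.Helper1.FH.T (d + 1) : ℕ) : ℤ) := by
      exact_mod_cast hv
    linarith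

end Pool.Agent.Results.MP_6ec8e4_ag.LargeDegree
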