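import Pool.Agent.Helper28.HG.QW

/-!
# The weak Harbourne-Hirschowitz conjecture outside a small window

Q1 (in the form of the frozen statement S00243) for all `d ≥ 2` and multiplicities `m` such that the points of
multiplicity at least 3 (the multiplicities `m0`) satisfy one of two numerical conditions on
`v2 = (d+1)(d+2) - ∑ m0 i (m0 i + 1)`.  Let `m_1 ≥ m_2 ≥ m_3 ≥ m_4 ≥ ...` be the multiplicities at least 3:

* `v2 ≥ 2 (m_3 - 1)(m_4 - 1)`, or
* `v2 ≤ - m_3 (m_4 - 1)`;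

more generally `m_3`, `m_4` may be replaced by the two largest multiplicities outside a set `A` of points with
`∑_A m0 i ≤ d + 1`.  There may be any number of points of multiplicity 1 and 2.

Proof: Pool/Agent/Helper28/HG (windows for the points of multiplicity at least 3; an irreducible curve of degree
`d ≥ 2` has `m_1 + m_2 ≤ d`), Pool/Agent/Helper28/HH/Qs.lean (points of multiplicity at most 2 can be added to any
nonspecial system containing an irreducible curve).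
Authors: helper28 (theorem, proof, skeleton) and the helpers who proved the blocks of the projects HH and HG.
-/

set_option autoImplicit false

namespace Pool.Agent.Results.MP_6ec8e4_ag.Q1Windows

open MvPolynomial

/-- `h` has multiplicity at least `m i` at the point `p i` -/
def Mult {n : ℕ} (m : Fin n → ℕ) (p : Fin n → Fin 2 → ℂ) (h : MvPolynomial (Fin 2) ℂ) : Prop :=
  ∀ i : Fin n, ∀ s : Fin 2 →₀ ℕ, s 0 + s 1 < m i →
    MvPolynomial.coeff s (MvPolynomial.aeval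
      (fun j : Fin 2 => (MvPolynomial.X j + MvPolynomial.C (p i j) : MvPolynomial (Fin 2) ℂ)) h) = 0

/-- twice the virtual dimension -/
def v2 {n : ℕ} (d : ℕ) (m : Fin n → ℕ) : ℤ :=
  ((d : ℤ) + 1) * ((d : ℤ) + 2) - ∑ i, ((m i : ℤ) * ((m i : ℤ) + 1))

/-- Q1 for the degree `d` and the multiplicities `m`: for general points, if some irreducible curve of degree `d` has
multiplicity at least `m i` at `p i`, then the curves with these multiplicities form a space of the expected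
dimension -/
def Q1 {n : ℕ} (d : ℕ) (m : Fin n → ℕ) : Prop :=
  ∃ g : MvPolynomial (Fin n × Fin 2) ℂ, g ≠ 0 ∧ ∀ p : Fin n → Fin 2 → ℂ,
    MvPolynomial.eval (fun ij : Fin n × Fin 2 => p ij.1 ij.2) g ≠ 0 →
    (∃ f : MvPolynomial (Fin 2) ℂ, Irreducible f ∧ f.totalDegree = d ∧ Mult m p f) →
    2 * (Module.finrank ℂ (Submodule.span ℂ
      {h : MvPolynomial (Fin 2) ℂ | h.totalDegree ≤ d ∧ Mult m p h}) : ℤ) = v2 d m

theorem result (n d : ℕ) (hd : 2 ≤ d) (m m0 : Fin n → ℕ)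
    (hm0 : m0 = fun i => if 3 ≤ m i then m i else 0)
    (A : Finset (Fin n)) (i1 i2 : Fin n) (h12 : i1 ≠ i2) (hi1 : i1 ∈ A) (hi2 : i2 ∈ A)
    (h1 : ∀ j, m0 j ≤ m0 i1) (h2 : ∀ j, j ≠ i1 → m0 j ≤ m0 i2)
    (hA : A = {i1, i2} ∨ ∑ i ∈ A, m0 i ≤ d + 1)
    (h : (0 ≤ v2 d m0 ∧ ∀ i j, i ∉ A → j ∉ A → i ≠ j → 1 ≤ m0 i → 1 ≤ m0 j →
        2 * (((m0 i : ℤ) - 1) * ((m0 j : ℤ) - 1)) ≤ v2 d m0) ∨
      (∃ i3, i3 ∉ A ∧ (∀ j, j ∉ A → m0 j ≤ m0 i3) ∧ v2 d m0 ≤ 0 ∧
        ∀ j, j ∉ A → j ≠ i3 → 1 ≤ m0 j → v2 d m0 ≤ -((m0 i3 : ℤ) * ((m0 j : ℤ) - 1)))) :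
    Q1 d m := by
  have hQ : Pool.Agent.Helper28.HH.QS n d m := by
    rcases h with ⟨h0, h3⟩ | ⟨i3, hi3, h3, h0, h4⟩
    · exact Pool.Agent.Helper28.HG.QS_windowS hd A h12 hi1 hi2 hm0 h1 h2 hA h0 h3
    · unfold v2 at h0 h4
      exact Pool.Agent.Helper28.HG.QS_windowE hd A h12 hi1 hi2 hi3 hm0 h1 h2 h3 hA (by linarith)
        (fun j hjA hj hj1 => by
          have := h4 j hjA hj hj1
          linarith)
  obtain ⟨g, hg, h5⟩ := hQ
  exact ⟨g, hg, fun p hp hf => (h5 p hp hf).finrank⟩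

end Pool.Agent.Results.MP_6ec8e4_ag.Q1Windows
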