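import Pool.Agent.Helper28.HG.Fin
import Pool.Agent.Helper28.HH.OptE

/-!
# General fat points in the plane: a sharp criterion for emptiness

`n` general points of multiplicities `m i`, curves of degree `d`, `v2 = (d+1)(d+2) - ∑ m i (m i + 1)` (twice the
virtual dimension).  With `m_1 ≥ m_2 ≥ ...`:

* `v2 ≤ - m_1 (m_2 - 1)` implies that there is no curve of degree `d` with these multiplicities, and this is best
  possible: for all `k, μ ≥ 1` the multiplicities `k μ, μ, ..., μ` (`k` times `μ`), `d = k μ`, have `v2 = 2 - m_1 (m_2 - 1)`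
  and a curve for all positions of the points;
* the bound may be replaced by `- a (b - 1)`, where `a`, `b` are the two largest multiplicities outside a set of
  special points containing the two largest points, as soon as `m_1 + m_2 ≤ d` and the sum of the special
  multiplicities is at most `d + 1`.

Proof: the special points are put on a line, the largest other point into the opposite corner of the triangle of
monomials, the others are degenerated in increasing order onto the lexicographic basis of nested row diagrams;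
the loss of conditions is controlled by an invariant, see Pool/Agent/Helper28/HH and Pool/Agent/Helper28/HG.
Authors: helper28 (theorem, proof, skeleton) and the helpers who proved the blocks of the projects HH and HG.
-/

set_option autoImplicit false

namespace Pool.Agent.Results.MP_6ec8e4_ag.SharpEmptiness

open MvPolynomial

/-- the polynomials of degree at most `d` with multiplicity at least `m i` at the point `p i` -/
def curves {n : ℕ} (d : ℕ) (m : Fin n → ℕ) (p : Fin n → Fin 2 → ℂ) : Set (MvPolynomial (Fin 2) ℂ) :=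
  {h | h.totalDegree ≤ d ∧ ∀ i : Fin n, ∀ s : Fin 2 →₀ ℕ, s 0 + s 1 < m i →
    MvPolynomial.coeff s (MvPolynomial.aeval
      (fun j : Fin 2 => (MvPolynomial.X j + MvPolynomial.C (p i j) : MvPolynomial (Fin 2) ℂ)) h) = 0}

/-- `P` holds for all `p` outside the zero set of some nonzero polynomial -/
def General (n : ℕ) (P : (Fin n → Fin 2 → ℂ) → Prop) : Prop :=
  ∃ g : MvPolynomial (Fin n × Fin 2) ℂ, g ≠ 0 ∧ ∀ p : Fin n → Fin 2 → ℂ,
    MvPolynomial.eval (fun ij : Fin n × Fin 2 => p ij.1 ij.2) g ≠ 0 → P p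

/-- twice the virtual dimension -/
def v2 {n : ℕ} (d : ℕ) (m : Fin n → ℕ) : ℤ :=
  ((d : ℤ) + 1) * ((d : ℤ) + 2) - ∑ i, ((m i : ℤ) * ((m i : ℤ) + 1))

theorem result :
    -- the criterion in terms of the two largest multiplicities
    (∀ (n d : ℕ) (m : Fin n → ℕ) (i1 : Fin n), (∀ j, m j ≤ m i1) → v2 d m ≤ 0 →
      (∀ j, j ≠ i1 → 1 ≤ m j → v2 d m ≤ -((m i1 : ℤ) * ((m j : ℤ) - 1))) →
      General n (fun p => ∀ f ∈ curves d m p, f = 0)) ∧
    -- it is best possible
    (∀ k μ : ℕ, v2 (k * μ) (Fin.cons (k * μ) (fun _ => μ) : Fin (k + 1) → ℕ)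
        = 2 - ((k * μ : ℕ) : ℤ) * ((μ : ℤ) - 1) ∧
      ∀ p : Fin (k + 1) → Fin 2 → ℂ,
        ∃ f ∈ curves (k * μ) (Fin.cons (k * μ) (fun _ => μ) : Fin (k + 1) → ℕ) p, f ≠ 0) ∧
    -- the criterion after a set `A` of special points
    (∀ (n d : ℕ) (m : Fin n → ℕ) (A : Finset (Fin n)) (i1 i2 i3 : Fin n), i1 ≠ i2 → i1 ∈ A → i2 ∈ A →
      i3 ∉ A → (∀ j, m j ≤ m i1) → (∀ j, j ≠ i1 → m j ≤ m i2) → (∀ j, j ∉ A → m j ≤ m i3) →
      ∑ i ∈ A, m i ≤ d + 1 → m i1 + m i2 ≤ d → v2 d m ≤ 0 →
      (∀ j, j ∉ A → j ≠ i3 → 1 ≤ m j → v2 d m ≤ -((m i3 : ℤ) * ((m j : ℤ) - 1))) →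
      General n (fun p => ∀ f ∈ curves d m p, f = 0)) := by
  refine ⟨?_, ?_, ?_⟩
  · intro n d m i1 h1 h0 h
    unfold v2 at h0 h
    obtain ⟨g, hg, h2⟩ := Pool.Agent.Helper28.HH.sharpE (n := n) (d := d) (m := m) i1 h1 (by linarith)
      (fun j hj hj1 => by
        have := h j hj hj1
        linarith)
    exact ⟨g, hg, fun p hp f hf => (h2 p hp).eq_zero hf.1 hf.2⟩
  · intro k μ
    refine ⟨Pool.Agent.Helper28.HH.optE_value k μ, fun p => ?_⟩
    obtain ⟨f, hf, hd, hv⟩ := Pool.Agent.Helper28.HH.optE (k := k) (μ := μ) p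
    exact ⟨f, ⟨hd, hv⟩, hf⟩
  · intro n d m A i1 i2 i3 h12 hi1 hi2 hi3 h1 h2 h3 hA hA2 h0 h
    unfold v2 at h0 h
    obtain ⟨g, hg, h4⟩ := Pool.Agent.Helper28.HG.windowE A h12 hi1 hi2 hi3 h1 h2 h3 hA hA2
      (by linarith) (fun j hjA hj hj1 => by
        have := h j hjA hj hj1
        linarith)
    exact ⟨g, hg, fun p hp f hf => (h4 p hp).eq_zero hf.1 hf.2⟩

end Pool.Agent.Results.MP_6ec8e4_ag.SharpEmptiness
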