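import Pool.Agent.Helper28.HG.Fin
import Pool.Agent.Helper28.HH.OptS

/-!
# General fat points in the plane: a sharp criterion for independence

`n` general points of multiplicities `m i`, curves of degree `d`, `v2 = (d+1)(d+2) - ∑ m i (m i + 1)` (twice the
virtual dimension).  With `m_1 ≥ m_2 ≥ ...`:

* `v2 ≥ 2 (m_1 - 1)(m_2 - 1)` implies that the conditions are independent, and this is best possible for all
  values of `m_1`, `m_2`;
* the bound may be replaced by `2 (a - 1)(b - 1)`, where `a`, `b` are the two largest multiplicities outside a set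
  of special points containing the two largest points, as soon as the sum of the special multiplicities is at
  most `d + 1`.

Proof: the special points are put on a line, the others are degenerated one after the other, in increasing order,
onto the monomials of row diagrams (slices of sizes `1, ..., m` in the rows, a row which is too short being
taken entirely), see Pool/Agent/Helper28/HH and Pool/Agent/Helper28/HG.
Authors: helper28 (theorem, proof, skeleton) and the helpers who proved the blocks of the projects HH and HG.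
-/

set_option autoImplicit false

namespace Pool.Agent.Results.MP_6ec8e4_ag.SharpIndependence

open MvPolynomial

/-- the polynomials of degree at most `d` with multiplicity at least `m i` at the point `p i` -/
def curves {n : ℕ} (d : ℕ) (m : Fin n → ℕ) (p : Fin n → Fin 2 → ℂ) : Set (MvPolynomial (Fin 2) ℂ) :=
  {h | h.totalDegree ≤ d ∧ ∀ i : Fin n, ∀ s : Fin 2 →₀ ℕ, s 0 + s 1 < m i →
    MvPolynomial.coeff s (MvPolynomial.aeval
      (fun j : Fin 2 => (MvPolynomial.X j + MvPolynomial.C (p i j) : MvPolynomial (Fin 2) ℂ)) h) = 0}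

/-- `P` holds for all `p` outside the zero set of some nonzero polynomial -/
def General (n : ℕ) (P : (Fin n → Fin 2 → ℂ) → Prop) : Prop :=
  ∃ g : MvPolynomial (Fin n × Fin 2) ℂ, g ≠ 0 ∧ ∀ p : Fin n → Fin 2 → ℂ,
    MvPolynomial.eval (fun ij : Fin n × Fin 2 => p ij.1 ij.2) g ≠ 0 → P p

/-- twice the virtual dimension -/
def v2 {n : ℕ} (d : ℕ) (m : Fin n → ℕ) : ℤ :=
  ((d : ℤ) + 1) * ((d : ℤ) + 2) - ∑ i, ((m i : ℤ) * ((m i : ℤ) + 1))

theorem result :
    -- the criterion in terms of the two largest multiplicities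
    (∀ (n d : ℕ) (m : Fin n → ℕ), 0 ≤ v2 d m →
      (∀ i j, i ≠ j → 1 ≤ m i → 1 ≤ m j → 2 * (((m i : ℤ) - 1) * ((m j : ℤ) - 1)) ≤ v2 d m) →
      General n (fun p => 2 * (Module.finrank ℂ (Submodule.span ℂ (curves d m p)) : ℤ) = v2 d m)) ∧
    -- it is best possible
    (∀ a b : ℕ, 1 ≤ a → 1 ≤ b →
      v2 (a + b - 2) ![a, b] = 2 * (((a : ℤ) - 1) * ((b : ℤ) - 1)) - 2 ∧
      ∀ p : Fin 2 → Fin 2 → ℂ, v2 (a + b - 2) ![a, b] + 2 ≤
        2 * (Module.finrank ℂ (Submodule.span ℂ (curves (a + b - 2) ![a, b] p)) : ℤ)) ∧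
    -- the criterion after a set `A` of special points
    (∀ (n d : ℕ) (m : Fin n → ℕ) (A : Finset (Fin n)) (i1 i2 : Fin n), i1 ≠ i2 → i1 ∈ A → i2 ∈ A →
      (∀ j, m j ≤ m i1) → (∀ j, j ≠ i1 → m j ≤ m i2) → ∑ i ∈ A, m i ≤ d + 1 → 0 ≤ v2 d m →
      (∀ i j, i ∉ A → j ∉ A → i ≠ j → 1 ≤ m i → 1 ≤ m j →
        2 * (((m i : ℤ) - 1) * ((m j : ℤ) - 1)) ≤ v2 d m) →
      General n (fun p => 2 * (Module.finrank ℂ (Submodule.span ℂ (curves d m p)) : ℤ) = v2 d m)) := by
  refine ⟨?_, ?_, ?_⟩
  · intro n d m h0 h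
    obtain ⟨g, hg, h1⟩ := Pool.Agent.Helper28.HH.sharpS (n := n) (d := d) (m := m) h0 h
    exact ⟨g, hg, fun p hp => (h1 p hp).finrank⟩
  · intro a b ha hb
    refine ⟨?_, fun p => Pool.Agent.Helper28.HH.optS ha hb p⟩
    unfold v2
    rw [Fin.sum_univ_two]
    simp only [Matrix.cons_val_zero, Matrix.cons_val_one]
    have h1 : ((a + b - 2 : ℕ) : ℤ) = (a : ℤ) + b - 2 := by
      rw [Nat.cast_sub (by omega)]
      push_cast
      ring
    rw [h1]
    ring
  · intro n d m A i1 i2 h12 hi1 hi2 h1 h2 hA h0 h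
    obtain ⟨g, hg, h3⟩ := Pool.Agent.Helper28.HG.windowS A h12 hi1 hi2 h1 h2 hA h0 h
    exact ⟨g, hg, fun p hp => (h3 p hp).finrank⟩

end Pool.Agent.Results.MP_6ec8e4_ag.SharpIndependence
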